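import Pool.Agent.TH346.CG.Defs

/-!
# The reduction lemma (union bound)
-/

open Finset
open scoped Pointwise

namespace Pool.Agent.TH321.CG

open Pool.Agent.TH346.CG

/-- union bound: if each of the sets `bad e`, `e ∈ s`, is small, then some `b ∈ B` avoids them -/
theorem Red_union {Γ ι : Type} [DecidableEq Γ] (B : Finset Γ) (hB : B.Nonempty)
    (s : Finset ι) (N : ℕ) (hs : s.card ≤ N) (bad : ι → Finset Γ)
    (h : ∀ e ∈ s, N * ((bad e).card) < B.card) : ∃ b ∈ B, ∀ e ∈ s, b ∉ bad e := by
  classical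
  by_contra hcon
  push Not at hcon
  have h1 : B ⊆ s.biUnion bad := by
    intro b hb
    obtain ⟨e, he, hbe⟩ := hcon b hb
    exact Finset.mem_biUnion.2 ⟨e, he, hbe⟩
  have h2 := (Finset.card_le_card h1).trans Finset.card_biUnion_le
  have hpos : 0 < B.card := hB.card_pos
  have hne : s.Nonempty := by
    by_contra h0
    rw [Finset.not_nonempty_iff_eq_empty] at h0
    rw [h0] at h2
    have h6 : B.card ≤ 0 := by simpa using h2
    omega
  have h3 : ∑ e ∈ s, N * (bad e).card < ∑ e ∈ s, B.card :=
    Finset.sum_lt_sum_of_nonempty hne h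
  rw [← Finset.mul_sum, Finset.sum_const, smul_eq_mul] at h3
  have h4 : N * B.card ≤ N * ∑ e ∈ s, (bad e).card := Nat.mul_le_mul_left _ h2
  have h5 : s.card * B.card ≤ N * B.card := Nat.mul_le_mul_right _ hs
  exact absurd (lt_of_lt_of_le h3 (h5.trans h4)) (lt_irrefl _)

theorem Red_sum {Γ : Type} [AddCommGroup Γ] {j : ℕ} (a : Fin j → Γ) (b : Γ)
    (ε : Fin (j + 1) → SignType) :
    (∑ i, ((ε i : SignType) : ℤ) • (Fin.snoc a b : Fin (j + 1) → Γ) i) =
      (∑ i : Fin j, ((ε i.castSucc : SignType) : ℤ) • a i) + ((ε (Fin.last j) : SignType) : ℤ) • b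
    := by
  rw [Fin.sum_univ_castSucc]
  simp [Fin.snoc_castSucc, Fin.snoc_last]

theorem red {Γ : Type} [AddCommGroup Γ] [Fintype Γ] [DecidableEq Γ] (j : ℕ) (A V B : Finset Γ)
    (hA : -A = A) (hV : -V = V) (hB : B ⊆ A \ V) (hBne : B.Nonempty) (h : P (j + 1) A V) :
    P j A (Vn j A V B) := by
  classical
  intro a ha
  by_contra hcon
  push Not at hcon
  -- membership in `Vn`
  have hVn : ∀ z, z ∉ Vn j A V B ↔ z ∉ V ∧
      3 ^ j * (B.filter (fun b => z + b ∈ A ∪ V ∨ z - b ∈ A ∪ V)).card < B.card := by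
    intro z
    simp only [Vn, Finset.mem_union, Finset.mem_filter, Finset.mem_univ, true_and, not_or, not_le]
  have hVn' : ∀ z, z ∈ Vn j A V B ↔ z ∈ V ∨
      B.card ≤ 3 ^ j * (B.filter (fun b => z + b ∈ A ∪ V ∨ z - b ∈ A ∪ V)).card := by
    intro z
    rw [Vn, Finset.mem_union, Finset.mem_filter]
    simp only [Finset.mem_univ, true_and]
  have hneg : ∀ x : Γ, x ∈ A ∪ V ↔ -x ∈ A ∪ V := by
    intro x
    rw [Finset.mem_union, Finset.mem_union]
    conv_lhs => rw [← hA, ← hV]
    rw [Finset.mem_neg', Finset.mem_neg']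
  have hnegV : ∀ x : Γ, x ∈ V ↔ -x ∈ V := by
    intro x
    conv_lhs => rw [← hV]
    rw [Finset.mem_neg']
  have hVnneg : ∀ z, z ∈ Vn j A V B ↔ -z ∈ Vn j A V B := by
    intro z
    have e1 : (B.filter (fun b => z + b ∈ A ∪ V ∨ z - b ∈ A ∪ V)) =
        (B.filter (fun b => -z + b ∈ A ∪ V ∨ -z - b ∈ A ∪ V)) := by
      refine Finset.filter_congr fun b _ => ?_
      rw [hneg (z + b), hneg (z - b), neg_add, neg_sub, or_comm]
      rw [show -z + -b = -z - b by abel, show b - z = -z + b by abel]
    rw [hVn', hVn', e1, hnegV z]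
  -- for every nonzero sign vector the sum is not in `Vn`
  have hz : ∀ ε : Fin j → SignType, ε ≠ 0 →
      (∑ i, ((ε i : SignType) : ℤ) • a i) ∉ Vn j A V B := by
    intro ε hε
    rcases Nat.lt_or_ge (univ.filter (fun i => ε i ≠ 0)).card 2 with h2 | h2
    · have h1 : (univ.filter (fun i => ε i ≠ 0)).Nonempty := by
        obtain ⟨i, hi⟩ := Function.ne_iff.1 hε
        exact ⟨i, by simpa using hi⟩
      have h3 : (univ.filter (fun i => ε i ≠ 0)).card = 1 := by
        have := h1.card_pos
        omega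
      obtain ⟨i, hi⟩ := Finset.card_eq_one.1 h3
      have hs : (∑ k, ((ε k : SignType) : ℤ) • a k) = ((ε i : SignType) : ℤ) • a i := by
        refine Finset.sum_eq_single i (fun k _ hk => ?_) (fun h => absurd (Finset.mem_univ i) h)
        have : k ∉ univ.filter (fun i => ε i ≠ 0) := by
          rw [hi]; simpa using hk
        have h4 : ε k = 0 := by simpa using this
        rw [h4]; simp
      have hi0 : ε i ≠ 0 := by
        have : i ∈ univ.filter (fun i => ε i ≠ 0) := by rw [hi]; simp
        simpa using this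
      rw [hs]
      rcases SignType.trichotomy (ε i) with h4 | h4 | h4
      · rw [h4]
        have : ((-1 : SignType) : ℤ) • a i = -a i := by simp
        rw [this, ← hVnneg]
        exact (ha i).2
      · exact absurd h4 hi0
      · rw [h4]
        have : ((1 : SignType) : ℤ) • a i = a i := by simp
        rw [this]
        exact (ha i).2
    · intro hmem
      exact hcon ε h2 (Finset.mem_union_right _ hmem)
  -- choose `b`
  obtain ⟨b, hb, hbad⟩ := Red_union B hBne ((univ : Finset (Fin j → SignType)).erase 0) (3 ^ j)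
    (by
      refine (Finset.card_le_card (Finset.erase_subset _ _)).trans ?_
      rw [Finset.card_univ, Fintype.card_fun, Fintype.card_fin]
      have : Fintype.card SignType = 3 := by decide
      rw [this])
    (fun ε => B.filter (fun b => (∑ i, ((ε i : SignType) : ℤ) • a i) + b ∈ A ∪ V ∨
      (∑ i, ((ε i : SignType) : ℤ) • a i) - b ∈ A ∪ V))
    (fun ε hε => ((hVn _).1 (hz ε (Finset.ne_of_mem_erase hε))).2)
  have hbad' : ∀ ε : Fin j → SignType, ε ≠ 0 →
      (∑ i, ((ε i : SignType) : ℤ) • a i) + b ∉ A ∪ V ∧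
      (∑ i, ((ε i : SignType) : ℤ) • a i) - b ∉ A ∪ V := by
    intro ε hε
    have h1 := hbad ε (Finset.mem_erase.2 ⟨hε, Finset.mem_univ _⟩)
    simp only [Finset.mem_filter, hb, true_and, not_or] at h1
    exact h1
  have hbAV := Finset.mem_sdiff.1 (hB hb)
  obtain ⟨ε, hε2, hεm⟩ := h (Fin.snoc a b) (by
    intro i
    refine Fin.lastCases ?_ (fun i => ?_) i
    · rw [Fin.snoc_last]; exact hbAV
    · rw [Fin.snoc_castSucc]
      exact ⟨(ha i).1, fun hv => (ha i).2 (Finset.mem_union_left _ hv)⟩)
  rw [Red_sum] at hεm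
  set ε' : Fin j → SignType := fun i => ε i.castSucc with hε'
  -- number of nonzero entries
  have hcard : (univ.filter (fun i => ε i ≠ 0)).card =
      (univ.filter (fun i => ε' i ≠ 0)).card + (if ε (Fin.last j) ≠ 0 then 1 else 0) := by
    rw [Finset.card_filter, Fin.sum_univ_castSucc, Finset.card_filter]
  rcases SignType.trichotomy (ε (Fin.last j)) with h4 | h4 | h4
  · -- last sign `-1`
    have hne : ε' ≠ 0 := by
      intro h0
      have : (univ.filter (fun i => ε' i ≠ 0)).card = 0 := by
        rw [h0]; simp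
      have h7 : (univ.filter (fun i => ε i ≠ 0)).card ≤ 1 := by
        rw [hcard, this]
        split_ifs <;> simp
      omega
    apply (hbad' ε' hne).2
    rw [h4] at hεm
    simpa [sub_eq_add_neg] using hεm
  · -- last sign `0`
    rw [h4] at hεm hcard
    simp only [ne_eq, not_true_eq_false, if_false, add_zero] at hcard
    have h5 : (∑ i : Fin j, ((ε' i : SignType) : ℤ) • a i) ∈ A ∪ V := by
      simpa using hεm
    refine hcon ε' (by rw [← hcard]; exact hε2) ?_
    rcases Finset.mem_union.1 h5 with h6 | h6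
    · exact Finset.mem_union_left _ h6
    · exact Finset.mem_union_right _ (Finset.mem_union_left _ h6)
  · -- last sign `1`
    have hne : ε' ≠ 0 := by
      intro h0
      have : (univ.filter (fun i => ε' i ≠ 0)).card = 0 := by
        rw [h0]; simp
      have h7 : (univ.filter (fun i => ε i ≠ 0)).card ≤ 1 := by
        rw [hcard, this]
        split_ifs <;> simp
      omega
    apply (hbad' ε' hne).1
    rw [h4] at hεm
    simpa using hεm

end Pool.Agent.TH321.CG
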